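import Pool.Agent.H5.FR2.Stmts

/-! # Project URB, module ORD -/

set_option autoImplicit false

namespace Pool.Agent.H5.FR2

open Finset Pool.Agent.H5.FR Pool.Agent.H80

private theorem ord_next2 {ι : Type} {F : Finset ι} {w : ι → ℝ} {M : ℝ} {D : ℝ}
    (hne : F.Nonempty) (hw : ∀ f ∈ F, |w f| ≤ M) (hD : |D| ≤ M)
    (hS : |D + ∑ f ∈ F, w f| ≤ M) : ∃ f ∈ F, |D + w f| ≤ M := by
  classical
  rw [abs_le] at hD hS
  rcases le_or_gt 0 D with h0 | h0
  · by_cases hc : ∃ f ∈ F, w f ≤ 0
    · obtain ⟨f, hf, hf0⟩ := hc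
      have h1 := abs_le.1 (hw f hf)
      refine ⟨f, hf, ?_⟩
      rw [abs_le]
      constructor <;> linarith
    · push Not at hc
      obtain ⟨f, hf⟩ := hne
      have h1 : w f ≤ ∑ g ∈ F, w g :=
        Finset.single_le_sum (f := w) (fun g hg => (hc g hg).le) hf
      have h2 := hc f hf
      refine ⟨f, hf, ?_⟩
      rw [abs_le]
      constructor <;> linarith
  · by_cases hc : ∃ f ∈ F, 0 ≤ w f
    · obtain ⟨f, hf, hf0⟩ := hc
      have h1 := abs_le.1 (hw f hf)
      refine ⟨f, hf, ?_⟩
      rw [abs_le]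
      constructor <;> linarith
    · push Not at hc
      obtain ⟨f, hf⟩ := hne
      have h1 : ∑ g ∈ F, w g ≤ w f := by
        have h3 : -w f ≤ ∑ g ∈ F, -w g :=
          Finset.single_le_sum (f := fun g => -w g) (fun g hg => by have := hc g hg; linarith) hf
        rw [Finset.sum_neg_distrib] at h3
        linarith
      have h2 := hc f hf
      refine ⟨f, hf, ?_⟩
      rw [abs_le]
      constructor <;> linarith

theorem ord_thm : ORDStmt := by
  intro ι _ F
  induction F using Finset.strongInduction with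
  | H F ih =>
    intro w M D hw hD hS
    rcases F.eq_empty_or_nonempty with rfl | hne
    · exact ⟨[], List.nodup_nil, by simp, hD⟩
    obtain ⟨f, hf, hf'⟩ := ord_next2 hne hw hD hS
    obtain ⟨L, h1, h2, h3⟩ := ih (F.erase f) (Finset.erase_ssubset hf) w M (D + w f)
      (fun g hg => hw g (Finset.mem_of_mem_erase hg)) hf'
      (by rw [add_assoc, Finset.add_sum_erase _ _ hf]; exact hS)
    refine ⟨f :: L, ?_, ?_, hD, h3⟩
    · rw [List.nodup_cons]
      refine ⟨fun hmem => ?_, h1⟩
      have h4 := List.mem_toFinset.2 hmem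
      rw [h2] at h4
      exact absurd h4 (Finset.notMem_erase f F)
    · rw [List.toFinset_cons, h2, Finset.insert_erase hf]

end Pool.Agent.H5.FR2
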