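import Pool.Agent.H5.FR2.Stmts

/-! # Project URB, module TEX -/

set_option autoImplicit false

namespace Pool.Agent.H5.FR2

open Finset Pool.Agent.H5.FR Pool.Agent.H80

section

variable {V : Type} [Fintype V] [DecidableEq V] {b r : ℕ}

private theorem tx_part_disj (c : Finset V) (g : V → Fin b) {k l : Fin b} (h : k ≠ l) :
    Disjoint (part c g k) (part c g l) := by
  unfold part
  rw [Finset.disjoint_filter]
  intro v _ h1 h2
  exact h (h1.symm.trans h2)

private theorem tx_part_sub (c : Finset V) (g : V → Fin b) (k : Fin b) : part c g k ⊆ c :=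
  Finset.filter_subset _ _

private theorem tx_un_sub {h : ℕ} (A : Blk V b r (h + 1)) (i : Fin r) (S : Finset (Fin b)) :
    un A i S ⊆ A.1 := by
  unfold un
  rw [Finset.biUnion_subset]
  intro k _
  exact tx_part_sub _ _ _

private theorem tx_ws_un {h : ℕ} (x : V → ℝ) (A : Blk V b r (h + 1)) (i : Fin r)
    (S : Finset (Fin b)) : ws x (un A i S) = ∑ k ∈ S, ws x (sub A i k).1 := by
  unfold ws un
  rw [Finset.sum_biUnion]
  intro k _ l _ hkl
  exact tx_part_disj _ _ hkl

private theorem tx_disj {h : ℕ} (A : Blk V b r (h + 1)) (i : Fin r) {S : Finset (Fin b)}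
    {e : Fin b} (he : e ∉ S) {T : Finset V} (hT : T ⊆ (sub A i e).1) :
    Disjoint (un A i S) T := by
  refine Disjoint.mono_right hT ?_
  unfold un
  rw [Finset.disjoint_biUnion_left]
  intro k hk
  exact tx_part_disj _ _ (fun h => he (h ▸ hk))

private theorem tx_lev (β : ℕ) (p : ℝ) : lev β p 0 = p := by simp [lev]

private theorem tx_lev_succ (β : ℕ) (p : ℝ) (h : ℕ) :
    lev β p (h + 1) = lev β p h * (β : ℝ) ^ 2 := by
  unfold lev
  rw [pow_succ]
  ring

private theorem tx_rng {x : V → ℝ} {lam β : ℕ} {u₀ p : ℝ} {h : ℕ} {A : Blk V b r h}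
    (hA : Good x lam β u₀ p h A) : Rng x lam (u₀ * (β : ℝ) ^ h) (lev β p h) A.1 := by
  cases h with
  | zero =>
    rw [pow_zero, mul_one, tx_lev]
    exact hA
  | succ h => exact hA.1

private theorem tx_aux {ι : Type} [DecidableEq ι] (x : ι → ℝ) (M : ℝ) (P : Finset ι) (D : ℝ)
    (hx : ∀ k ∈ P, |x k| ≤ M) (hD : 0 ≤ D) (hP : D + ∑ k ∈ P, x k < 0) :
    ∃ (S : Finset ι) (e : ι), e ∉ S ∧ |D + ∑ k ∈ S, x k| ≤ M ∧
      |D + ∑ k ∈ S, x k + x e| ≤ M := by
  induction P using Finset.induction_on with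
  | empty =>
    rw [Finset.sum_empty] at hP
    linarith
  | insert a P ha ih =>
    rcases lt_or_ge (D + ∑ k ∈ P, x k) 0 with h | h
    · exact ih (fun k hk => hx k (Finset.mem_insert_of_mem hk)) h
    · rw [Finset.sum_insert ha] at hP
      have h1 := abs_le.1 (hx a (Finset.mem_insert_self a P))
      refine ⟨P, a, ha, ?_, ?_⟩ <;>
      · rw [abs_le]
        constructor <;> linarith

private theorem tx_pick {x : V → ℝ} {M : ℝ} {g : V → Fin b} {c : Finset V} {M' : ℝ}
    (hm : Mass x c g M) (hx : ∀ k, |ws x (part c g k)| ≤ M') {D : ℝ} (hD : |D| ≤ M) :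
    ∃ (S : Finset (Fin b)) (e : Fin b), e ∉ S ∧
      |D + ∑ k ∈ S, ws x (part c g k)| ≤ M' ∧
      |D + ∑ k ∈ S, ws x (part c g k) + ws x (part c g e)| ≤ M' := by
  classical
  rw [abs_le] at hD
  rcases le_or_gt 0 D with h0 | h0
  · refine tx_aux (fun k => ws x (part c g k)) M'
      (univ.filter (fun k => ws x (part c g k) < 0)) D (fun k _ => hx k) h0 ?_
    have h1 := hm.2
    have h2 : ∑ k, max (-(ws x (part c g k))) 0 =
        -(∑ k ∈ univ.filter (fun k => ws x (part c g k) < 0), ws x (part c g k)) := by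
      rw [Finset.sum_filter, ← Finset.sum_neg_distrib]
      refine Finset.sum_congr rfl fun k _ => ?_
      split_ifs with h
      · rw [max_eq_left (by linarith)]
      · rw [max_eq_right (by linarith), neg_zero]
    rw [h2] at h1
    linarith
  · have key := tx_aux (fun k => -ws x (part c g k)) M'
      (univ.filter (fun k => 0 < ws x (part c g k))) (-D) (fun k _ => by
        rw [abs_neg]
        exact hx k) (by linarith) ?_
    · obtain ⟨S, e, h1, h2, h3⟩ := key
      refine ⟨S, e, h1, ?_, ?_⟩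
      · rw [← abs_neg]
        have e1 : -(D + ∑ k ∈ S, ws x (part c g k)) = -D + ∑ k ∈ S, -ws x (part c g k) := by
          rw [Finset.sum_neg_distrib]
          ring
        rw [e1]
        exact h2
      · rw [← abs_neg]
        have e1 : -(D + ∑ k ∈ S, ws x (part c g k) + ws x (part c g e)) =
            -D + ∑ k ∈ S, -ws x (part c g k) + -ws x (part c g e) := by
          rw [Finset.sum_neg_distrib]
          ring
        rw [e1]
        exact h3
    · have h1 := hm.1
      have h2 : ∑ k, max (ws x (part c g k)) 0 =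
          ∑ k ∈ univ.filter (fun k => 0 < ws x (part c g k)), ws x (part c g k) := by
        rw [Finset.sum_filter]
        refine Finset.sum_congr rfl fun k _ => ?_
        split_ifs with h
        · rw [max_eq_left h.le]
        · rw [max_eq_right (not_lt.1 h)]
      rw [h2] at h1
      rw [Finset.sum_neg_distrib]
      linarith

private theorem tx_sqrt {a b : ℝ} (hb : 0 ≤ b) (h : a ≤ b ^ 2) : √a ≤ b := by
  rw [← Real.sqrt_sq hb]
  exact Real.sqrt_le_sqrt h

end

theorem tex_thm : TEXStmt := by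
  intro V _ _ x hx lam β r hPH u₀ p M hu hp hpu hM h
  have hl : (1 : ℝ) ≤ lam := by exact_mod_cast hPH.lam_pos
  have hβ : 0 < β := lt_of_le_of_lt (Nat.zero_le _) hPH.big
  have hβ0 : (0 : ℝ) ≤ β := Nat.cast_nonneg _
  have hb : 0 < β ^ 2 := pow_pos hβ 2
  have hu0 : 0 ≤ u₀ := by linarith
  have hM0 : 0 ≤ M := le_trans (by positivity) hM
  have hR : ∀ P : ℝ, 0 ≤ (lam : ℝ) * rho lam P := by
    intro P
    unfold rho
    positivity
  have hws0 : ws x (∅ : Finset V) = 0 := by simp [ws]
  have hsmall : ∀ P : ℝ, rho lam P ≤ (u₀ + 2 * lam) * (β + 1) → (lam : ℝ) * rho lam P ≤ M := by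
    intro P hP
    exact (mul_le_mul_of_nonneg_left hP (by linarith)).trans hM
  induction h with
  | zero =>
    intro A
    refine ⟨fun D T hT => ?_, fun _ => ?_, fun hA D hD => ?_⟩
    · obtain ⟨rfl, hD⟩ := hT
      rw [hws0, add_zero]
      exact ⟨Finset.empty_subset _, hD⟩
    · refine ⟨rfl, ?_⟩
      rw [abs_zero]
      exact hM0
    · refine ⟨∅, rfl, hD.trans (hsmall _ ?_)⟩
      rw [tx_lev]
      unfold rho
      have h1 : √(p + 4 * (lam : ℝ) ^ 2) ≤ u₀ + 2 * lam :=
        tx_sqrt (by linarith) (by nlinarith)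
      nlinarith
  | succ h ih =>
    intro A
    refine ⟨?_, ?_, ?_⟩
    · rintro D T (⟨-, rfl, hD⟩ | ⟨-, i, S, e, Te, he, -, rfl, hTe, -, -⟩)
      · rw [hws0, add_zero]
        exact ⟨Finset.empty_subset _, hD⟩
      · obtain ⟨h1, h2⟩ := (ih (sub A i e)).1 _ _ hTe
        refine ⟨Finset.union_subset (tx_un_sub A i S) (h1.trans (tx_part_sub _ _ _)), ?_⟩
        have h3 : ws x (un A i S ∪ Te) = ws x (un A i S) + ws x Te := by
          unfold ws
          exact Finset.sum_union (tx_disj A i he h1)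
        rw [h3, ← add_assoc]
        exact h2
    · rintro ⟨-, i, -, hg⟩
      rcases lt_or_ge (lev β p h) (4 * (lam : ℝ) ^ 2) with hlt | hge
      · refine Or.inl ⟨hlt, rfl, ?_⟩
        rw [abs_zero]
        exact hM0
      · refine Or.inr ⟨hge, i, ∅, ⟨0, hb⟩, ∅, Finset.notMem_empty _, hg, ?_, ?_, ?_, ?_⟩
        · simp [un]
        · have e1 : (0 : ℝ) + ws x (un A i ∅) = 0 := by simp [un, ws]
          rw [e1]
          exact (ih _).2.1 (hg _)
        · have e1 : (0 : ℝ) + ws x (un A i ∅) = 0 := by simp [un, ws]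
          rw [e1, abs_zero]
          exact hR _
        · have e1 : (0 : ℝ) + ws x (un A i ∅) = 0 := by simp [un, ws]
          rw [e1, zero_add]
          exact (tx_rng (hg _)).2.2
    · rintro ⟨-, i, hm, hg⟩ D hD
      rcases lt_or_ge (lev β p h) (4 * (lam : ℝ) ^ 2) with hlt | hge
      · refine ⟨∅, Or.inl ⟨hlt, rfl, hD.trans (hsmall _ ?_)⟩⟩
        rw [tx_lev_succ]
        unfold rho
        have h2 : √(lev β p h * (β : ℝ) ^ 2 + 4 * (lam : ℝ) ^ 2) ≤ 2 * lam * (β + 1) := by
          refine tx_sqrt (by positivity) ?_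
          have h3 : lev β p h * (β : ℝ) ^ 2 ≤ 4 * (lam : ℝ) ^ 2 * (β : ℝ) ^ 2 :=
            mul_le_mul_of_nonneg_right hlt.le (by positivity)
          have h4 : 0 ≤ (lam : ℝ) ^ 2 * β := by positivity
          nlinarith
        have h5 : 0 ≤ u₀ * ((β : ℝ) + 1) := by positivity
        nlinarith
      · obtain ⟨S, e, he, h1, h2⟩ := tx_pick (hm hge) (M' := lam * rho lam (lev β p h))
          (fun k => (tx_rng (hg k)).2.2) hD
        have h3 : ws x (un A i S) = ∑ k ∈ S, ws x (part A.1 (A.2 i).1 k) := tx_ws_un x A i S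
        rw [← h3] at h1 h2
        obtain ⟨Te, hTe⟩ := (ih (sub A i e)).2.2 (hg e) _ h1
        exact ⟨un A i S ∪ Te, Or.inr ⟨hge, i, S, e, Te, he, hg, rfl, hTe, h1, h2⟩⟩

end Pool.Agent.H5.FR2
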